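import Pool.Agent.helper70.RK.Spec

/-!
# Row rk:BY2: the centralisers `Y`, `D`
-/

set_option autoImplicit false

namespace RK

open QS (Lef EAb)
open LEQ (Stb Nz XS Ls Mb FS mem_FS)

theorem BY2_one {G : Type} [Group G] (S : Subgroup G) : Cj 1 S = S := by
  ext x
  rw [mem_Cj]
  simp

theorem BY2_ne {G : Type} [Group G] (S : Subgroup G) (h : NS S) : S ≠ ⊥ := by
  intro h0
  obtain ⟨-, x, hx, y, hy, hxy⟩ := h
  rw [h0, Subgroup.mem_bot] at hx
  apply hxy
  rw [hx, one_mul, mul_one]

/-- a normal `p`-subgroup of a nonabelian simple group is trivial -/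
theorem BY2_simple {G : Type} [Group G] [Finite G] (p : ℕ) (hp : p.Prime) (S P : Subgroup G)
    (hS : NS S) (hc : ∀ x ∈ S, (∀ y ∈ S, x * y = y * x) → x = 1) (hPS : P ≤ S)
    (hn : ∀ s ∈ S, ∀ x ∈ P, s * x * s⁻¹ ∈ P) (hP : IsPGroup p P) : P = ⊥ := by
  haveI := hS.1
  have hN : (P.subgroupOf S).Normal := by
    constructor
    intro x hx g
    rw [Subgroup.mem_subgroupOf] at hx ⊢
    exact hn g.1 g.2 x.1 hx
  rcases hN.eq_bot_or_eq_top with h | h
  · rw [Subgroup.subgroupOf_eq_bot] at h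
    rw [eq_bot_iff]
    intro x hx
    exact h.le_bot ⟨hx, hPS hx⟩
  · exfalso
    rw [Subgroup.subgroupOf_eq_top] at h
    have hSP : IsPGroup p S := hP.to_le h
    haveI : Fact p.Prime := ⟨hp⟩
    have hlt := hSP.bot_lt_center
    apply hlt.ne'
    rw [eq_bot_iff]
    intro x hx
    rw [Subgroup.mem_bot]
    apply Subtype.ext
    refine hc x.1 x.2 ?_
    intro y hy
    have := Subgroup.mem_center_iff.1 hx ⟨y, hy⟩
    exact (congrArg Subtype.val this).symm

theorem BY2 (hNAB : NAB_stmt) (hOQN : OQN_stmt) (hFCM : FCM_stmt) : BY2_stmt := by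
  intro G _ _ p hp N S Y D hB
  obtain ⟨F1, F2, F3⟩ := hFCM G N S hB.fm
  have hCS : IsC S S := ⟨1, (BY2_one S).symm⟩
  have hNS : NS S := hB.fm.ns
  have hS0 : S ≠ ⊥ := BY2_ne S hNS
  haveI hNn : N.Normal := hB.fm.nn
  have mY : ∀ x : G, x ∈ Y ↔ ∀ s ∈ S, s * x = x * s := by
    intro x
    rw [hB.ey, Subgroup.mem_centralizer_iff]
    rfl
  have mD : ∀ x : G, x ∈ D ↔ ∀ y ∈ Y, y * x = x * y := by
    intro x
    rw [hB.ed, Subgroup.mem_centralizer_iff]
    rfl
  have hKY : ∀ K : Subgroup G, IsC S K → K ≠ S → K ≤ Y := by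
    intro K hK hKS x hx
    rw [mY]
    intro s hs
    exact ((F1 K S hK hCS hKS).1 x hx s hs).symm
  have hSD : S ≤ D := by
    intro s hs
    rw [mD]
    intro y hy
    exact ((mY y).1 hy s hs).symm
  -- (b)
  have hDY : D ⊓ Y = ⊥ := by
    rw [eq_bot_iff]
    rintro z ⟨hzD, hzY⟩
    have hzD' := (mD z).1 hzD
    have hzY' := (mY z).1 hzY
    have hzN : Com N z := by
      apply F3
      intro K hK
      by_cases hKS : K = S
      · intro y hy
        rw [hKS] at hy
        exact hzY' y hy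
      · intro y hy
        exact hzD' y (hKY K hK hKS hy)
    have hBY : ∀ b : G, b ∈ Subgroup.centralizer (N : Set G) → b ∈ Y := by
      intro b hb
      rw [mY]
      intro s hs
      exact Subgroup.mem_centralizer_iff.1 hb s (hB.fm.le hs)
    have hA := hNAB G p hp hB.op hB.oq (Subgroup.centralizer (N : Set G) ⊓
      Subgroup.centralizer ((Subgroup.centralizer (N : Set G) : Subgroup G) : Set G))
      inferInstance (by
        rintro x ⟨hx1, hx2⟩ y ⟨hy1, hy2⟩
        exact (Subgroup.mem_centralizer_iff.1 hx2 y hy1).symm)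
    rw [← hA]
    refine ⟨?_, ?_⟩
    · exact Subgroup.mem_centralizer_iff.2 fun n hn => hzN n hn
    · exact Subgroup.mem_centralizer_iff.2 fun b hb => hzD' b (hBY b hb)
  -- (d) D normalises S
  have hDS : ∀ d ∈ D, ∀ s ∈ S, d * s * d⁻¹ ∈ S := by
    intro d hd
    have hCj : Cj d S = S := by
      by_contra hne
      have hK : IsC S (Cj d S) := ⟨d, rfl⟩
      have hle := hKY _ hK hne
      have h1 : Cj d S ≤ S := by
        intro x hx
        have h2 := (mD d).1 hd x (hle hx)
        have h3 := mem_Cj.1 hx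
        have h4 : d⁻¹ * x * d = x := by
          rw [mul_assoc, h2, inv_mul_cancel_left]
        rwa [h4] at h3
      have h5 := (F1 _ S hK hCS hne).2
      rw [inf_eq_left.2 h1] at h5
      exact BY2_ne _ (F2 _ hK).1 h5
    intro s hs
    rw [← hCj, mem_Cj]
    have : d⁻¹ * (d * s * d⁻¹) * d = s := by group
    rwa [this]
  have hOpD : OpS p D := by
    intro P hPD hPn hPp
    have hPS : P ⊓ S = ⊥ := by
      refine BY2_simple p hp S (P ⊓ S) hNS (F2 S hCS).2.2.2.2.1 inf_le_right ?_
        (hPp.to_le inf_le_left)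
      rintro s hs x ⟨hx1, hx2⟩
      exact ⟨hPn s (hSD hs) x hx1, S.mul_mem (S.mul_mem hs hx2) (S.inv_mem hs)⟩
    rw [eq_bot_iff]
    intro t ht
    have hY : t ∈ Y := by
      rw [mY]
      intro s hs
      have h1 : t * s * t⁻¹ * s⁻¹ ∈ P ⊓ S := by
        constructor
        · have h2 : s * t⁻¹ * s⁻¹ ∈ P := hPn s (hSD hs) _ (P.inv_mem ht)
          have h3 : t * s * t⁻¹ * s⁻¹ = t * (s * t⁻¹ * s⁻¹) := by group
          rw [h3]
          exact P.mul_mem ht h2
        · exact S.mul_mem (hDS t (hPD ht) s hs) (S.inv_mem hs)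
      rw [hPS, Subgroup.mem_bot] at h1
      have h4 : t * s = s * t := by
        have h5 : t * s * t⁻¹ = s := mul_inv_eq_one.1 h1
        have h6 : t * s * t⁻¹ * t = s * t := by rw [h5]
        rwa [inv_mul_cancel_right] at h6
      exact h4.symm
    rw [← hDY]
    exact ⟨hPD ht, hY⟩
  -- (e)
  have hpS : p ∣ Nat.card S := by
    by_contra h
    apply hS0
    refine hOQN G p hp hB.oq N hNn S hB.fm.le ?_ h
    intro v hv x hx
    rw [← hB.fm.st v hv, mem_Cj]
    have : v⁻¹ * (v * x * v⁻¹) * v = x := by group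
    rwa [this]
  have hpY : p ∣ Nat.card Y := by
    by_cases hex : ∃ K : Subgroup G, IsC S K ∧ K ≠ S
    · obtain ⟨K, hK, hKS⟩ := hex
      have h1 := Subgroup.card_dvd_of_le (hKY K hK hKS)
      rw [(F2 K hK).2.2.2.2.2] at h1
      exact hpS.trans h1
    · have hall : ∀ g : G, Cj g S = S := by
        intro g
        by_contra hne
        exact hex ⟨Cj g S, ⟨g, rfl⟩, hne⟩
      haveI hSn : S.Normal := by
        constructor
        intro x hx g
        rw [← hall g, mem_Cj]
        have : g⁻¹ * (g * x * g⁻¹) * g = x := by group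
        rwa [this]
      by_contra h
      apply hB.yn
      refine hB.oq Y ?_ h
      rw [hB.ey]
      infer_instance
  refine ⟨hDY, ?_, hOpD, hpS.trans (Subgroup.card_dvd_of_le hSD), hpY, hSD⟩
  apply le_antisymm
  · intro x hx
    rw [mY]
    intro s hs
    exact Subgroup.mem_centralizer_iff.1 hx s (hSD hs)
  · intro y hy
    exact Subgroup.mem_centralizer_iff.2 fun d hd => ((mD d).1 hd y hy).symm

end RK
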