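import Pool.Agent.helper70.RK.Spec

/-!
# Row rk:QLF: quotients by normal subgroups of order prime to p
-/

set_option autoImplicit false

namespace RK

open QS (Lef EAb)
open LEQ (Stb Nz XS Ls Mb FS mem_FS)

theorem QLF_mem {H K : Type} [Group H] [Group K] (e : H ≃* K) (E : Subgroup H) (x : K) :
    x ∈ e.mapSubgroup E ↔ e.symm x ∈ E := by
  change x ∈ E.map e.toMonoidHom ↔ _
  exact Subgroup.mem_map_equiv

theorem QLF_iff {H K : Type} [Group H] [Group K] (e : H ≃* K) (p : ℕ) (h : H) (E : Subgroup H) :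
    (E ≠ ⊥ ∧ (∀ x ∈ E, ∀ y ∈ E, x * y = y * x) ∧ (∀ x ∈ E, x ^ p = 1) ∧
      (∀ x : H, x ∈ E ↔ h * x * h⁻¹ ∈ E)) ↔
    (e.mapSubgroup E ≠ ⊥ ∧ (∀ x ∈ e.mapSubgroup E, ∀ y ∈ e.mapSubgroup E, x * y = y * x) ∧
      (∀ x ∈ e.mapSubgroup E, x ^ p = 1) ∧
      (∀ x : K, x ∈ e.mapSubgroup E ↔ e h * x * (e h)⁻¹ ∈ e.mapSubgroup E)) := by
  have m : ∀ x : H, e x ∈ e.mapSubgroup E ↔ x ∈ E := by
    intro x
    rw [QLF_mem, MulEquiv.symm_apply_apply]
  constructor
  · rintro ⟨h1, h2, h3, h4⟩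
    refine ⟨?_, ?_, ?_, ?_⟩
    · intro h0
      apply h1
      exact e.mapSubgroup.injective (h0.trans (map_bot e.mapSubgroup).symm)
    · intro x hx y hy
      rw [QLF_mem] at hx hy
      have := h2 _ hx _ hy
      rw [← map_mul, ← map_mul] at this
      exact e.symm.injective this
    · intro x hx
      rw [QLF_mem] at hx
      have := h3 _ hx
      rw [← map_pow] at this
      exact e.symm.injective (this.trans (map_one e.symm).symm)
    · intro x
      obtain ⟨y, rfl⟩ := e.surjective x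
      rw [← map_mul, ← map_inv, ← map_mul, m, m]
      exact h4 y
  · rintro ⟨h1, h2, h3, h4⟩
    refine ⟨?_, ?_, ?_, ?_⟩
    · intro h0
      apply h1
      rw [h0]
      exact map_bot e.mapSubgroup
    · intro x hx y hy
      have := h2 _ ((m x).2 hx) _ ((m y).2 hy)
      rw [← map_mul, ← map_mul] at this
      exact e.injective this
    · intro x hx
      have := h3 _ ((m x).2 hx)
      rw [← map_pow] at this
      exact e.injective (this.trans (map_one e).symm)
    · intro x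
      have := h4 (e x)
      rw [← map_mul, ← map_inv, ← map_mul, m, m] at this
      exact this

theorem QLF_Lef {H K : Type} [Group H] [Group K] (e : H ≃* K) (p : ℕ) (h : H) :
    Lef H p h = Lef K p (e h) := by
  unfold Lef
  refine Eq.trans ?_ (finsum_comp_equiv (Equiv.finsetCongr e.mapSubgroup.toEquiv))
  refine finsum_congr fun s => ?_
  have hmem : ∀ E' : Subgroup K, E' ∈ (Equiv.finsetCongr e.mapSubgroup.toEquiv) s ↔
      ∃ E ∈ s, e.mapSubgroup E = E' := by
    intro E'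
    rw [Equiv.finsetCongr_apply, Finset.mem_map]
    rfl
  refine finsum_congr_Prop (propext ?_) ?_
  · constructor
    · rintro ⟨h1, h2⟩
      refine ⟨?_, ?_⟩
      · intro a ha b hb hab
        obtain ⟨E, hE, rfl⟩ := (hmem a).1 ha
        obtain ⟨E', hE', rfl⟩ := (hmem b).1 hb
        have hne : E ≠ E' := fun h0 => hab (by rw [h0])
        rcases h1 hE hE' hne with h3 | h3
        · exact Or.inl (e.mapSubgroup.le_iff_le.2 h3)
        · exact Or.inr (e.mapSubgroup.le_iff_le.2 h3)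
      · intro a ha
        obtain ⟨E, hE, rfl⟩ := (hmem a).1 ha
        exact (QLF_iff e p h E).1 (h2 E hE)
    · rintro ⟨h1, h2⟩
      refine ⟨?_, ?_⟩
      · intro E hE E' hE' hne
        have hab : e.mapSubgroup E ≠ e.mapSubgroup E' := e.mapSubgroup.injective.ne hne
        rcases h1 ((hmem _).2 ⟨E, hE, rfl⟩) ((hmem _).2 ⟨E', hE', rfl⟩) hab with h3 | h3
        · exact Or.inl (e.mapSubgroup.le_iff_le.1 h3)
        · exact Or.inr (e.mapSubgroup.le_iff_le.1 h3)
      · intro E hE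
        exact (QLF_iff e p h E).2 (h2 _ ((hmem _).2 ⟨E, hE, rfl⟩))
  · intro _
    rw [Equiv.finsetCongr_apply, Finset.card_map]

theorem QLF (hLFIN : LEQ.FIN_stmt) : QLF_stmt := by
  intro G _ _ p hp V _ hV hQ
  obtain ⟨c, hc⟩ := hQ
  have hCc : LEQ.Cc (fun i : Empty => (i.elim : Subgroup (G ⧸ V))) = ⊤ := by
    rw [eq_top_iff]
    intro x _ i
    exact i.elim
  refine hLFIN G p hp V hV Empty (fun i => i.elim) ?_ (fun i => i.elim) ?_ (fun i => i.elim)
    (fun x _ _ _ i => i.elim) ?_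
  · exact ⟨fun _ i => i.elim, fun i => i.elim, fun i => i.elim, fun i => i.elim⟩
  · exact ⟨fun i => i.elim, fun _ i => i.elim⟩
  · refine ⟨⟨c, by rw [hCc]; exact Subgroup.mem_top c⟩, ?_⟩
    have e : LEQ.Cc (fun i : Empty => (i.elim : Subgroup (G ⧸ V))) ≃* (G ⧸ V) :=
      (MulEquiv.subgroupCongr hCc).trans Subgroup.topEquiv
    have h1 := QLF_Lef ((MulEquiv.subgroupCongr hCc).trans Subgroup.topEquiv) p
      (⟨c, by rw [hCc]; exact Subgroup.mem_top c⟩ :
        LEQ.Cc (fun i : Empty => (i.elim : Subgroup (G ⧸ V))))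
    rw [h1]
    exact hc

end RK
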