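import Pool.Agent.helper70.RK.Spec

/-!
# Row rk:R2A: the Lefschetz number in rank two
-/

set_option autoImplicit false

namespace RK

open QS (Lef EAb)
open LEQ (Stb Nz XS Ls Mb FS mem_FS)

theorem R2A_stb {G : Type} [Group G] (E : Subgroup G) : Stb 1 E := by
  intro x
  simp

theorem R2A_lt {G : Type} [Group G] [Finite G] (p : ℕ) (hp : p.Prime) (E F : Subgroup G)
    (hE : Nat.card E = p) (hF : F < E) : F = ⊥ := by
  have h1 : Nat.card F ∣ p := by
    rw [← hE]
    exact Subgroup.card_dvd_of_le hF.le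
  rcases (Nat.dvd_prime hp).1 h1 with h2 | h2
  · exact Subgroup.card_eq_one.1 h2
  · exfalso
    apply hF.ne
    exact Subgroup.eq_of_le_of_card_ge hF.le (by rw [hE, h2])

/-- the Euler characteristic of the empty poset -/
theorem R2A_XS (hLXT : LEQ.XT_stmt) {α : Type} [PartialOrder α] [Finite α] (P : α → Prop)
    (hP : ∀ x, ¬ P x) : XS P = -1 := by
  rw [hLXT α P]
  have h : FS P = ∅ := by
    rw [Finset.eq_empty_iff_forall_notMem]
    intro x hx
    exact hP x (mem_FS.1 hx)
  rw [h, Finset.sum_empty, sub_zero]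

theorem R2A_p (hLXT : LEQ.XT_stmt) {C : Type} [Group C] [Finite C] (p : ℕ) (hp : p.Prime)
    (E : Subgroup C) (hE : Nat.card E = p) :
    XS (fun F : Subgroup C => F ≠ ⊥ ∧ F < E ∧ Stb 1 F) = -1 := by
  apply R2A_XS hLXT
  rintro F ⟨h1, h2, -⟩
  exact h1 (R2A_lt p hp E F hE h2)

theorem R2A_pp (hSBN : SBN_stmt) (hLXT : LEQ.XT_stmt) {C : Type} [Group C] [Finite C] (p : ℕ)
    (hp : p.Prime) (E : Subgroup C) (hEA : EAb p E) (hE : Nat.card E = p ^ 2) :
    XS (fun F : Subgroup C => F ≠ ⊥ ∧ F < E ∧ Stb 1 F) = p := by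
  obtain ⟨hc, hs⟩ := hSBN C p hp E hEA hE
  rw [hLXT]
  have h1 : ∀ F ∈ FS (fun F : Subgroup C => F ≠ ⊥ ∧ F < E ∧ Stb 1 F),
      XS (fun F' : Subgroup C => (F' ≠ ⊥ ∧ F' < E ∧ Stb 1 F') ∧ F' < F) = -1 := by
    intro F hF
    obtain ⟨h2, h3, -⟩ := mem_FS.1 hF
    apply R2A_XS hLXT
    rintro F' ⟨⟨h4, -, -⟩, h5⟩
    exact h4 (R2A_lt p hp F F' (hs F h3.le h2 h3.ne) h5)
  rw [Finset.sum_congr rfl h1, Finset.sum_const, nsmul_eq_mul]
  have h6 : FS (fun F : Subgroup C => F ≠ ⊥ ∧ F < E ∧ Stb 1 F) =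
      FS (fun F : Subgroup C => F ≤ E ∧ Nat.card F = p) := by
    ext F
    rw [mem_FS, mem_FS]
    constructor
    · rintro ⟨h2, h3, -⟩
      exact ⟨h3.le, hs F h3.le h2 h3.ne⟩
    · rintro ⟨h2, h3⟩
      refine ⟨?_, lt_of_le_of_ne h2 ?_, R2A_stb F⟩
      · intro h4
        rw [h4, Subgroup.card_bot] at h3
        exact hp.one_lt.ne h3
      · intro h4
        rw [h4, hE] at h3
        have := hp.one_lt
        nlinarith
  rw [h6, hc]
  push_cast
  ring

theorem R2A (hSBN : SBN_stmt) (hLXT : LEQ.XT_stmt) (hLLM : LEQ.LM_stmt) : R2A_stmt := by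
  intro C _ _ p hp hR
  classical
  rw [hLLM C p 1]
  unfold Ls
  have e1 : FS (fun E : Subgroup C => E ≤ ⊤ ∧ EAb p E ∧ Stb 1 E) =
      FS (fun E : Subgroup C => EAb p E) := by
    ext E
    rw [mem_FS, mem_FS]
    exact ⟨fun h => h.2.1, fun h => ⟨le_top, h, R2A_stb E⟩⟩
  rw [e1]
  have hp1 := hp.one_lt
  have hpp : p ≠ p ^ 2 := by
    intro h
    nlinarith
  have hval : ∀ E ∈ FS (fun E : Subgroup C => EAb p E), Mb 1 E =
      (if E = ⊥ then (1 : ℤ) else 0) + (if Nat.card E = p then (-1 : ℤ) else 0) +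
        (if Nat.card E = p ^ 2 then (p : ℤ) else 0) := by
    intro E hE
    have hEA : EAb p E := mem_FS.1 hE
    have hP : IsPGroup p E := by
      intro x
      refine ⟨1, ?_⟩
      rw [pow_one]
      apply Subtype.ext
      exact hEA.2 x.1 x.2
    haveI : Fact p.Prime := ⟨hp⟩
    obtain ⟨k, hk⟩ := IsPGroup.iff_card.1 hP
    have hk2 : k ≤ 2 := by
      have := hR E hEA
      rw [hk] at this
      exact (Nat.pow_le_pow_iff_right hp1).1 this
    have hcases : k = 0 ∨ k = 1 ∨ k = 2 := by omega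
    rcases hcases with h | h | h
    · rw [h, pow_zero] at hk
      have hb : E = ⊥ := Subgroup.card_eq_one.1 hk
      rw [if_pos hb, if_neg (by rw [hk]; exact hp1.ne), if_neg (by rw [hk]; nlinarith)]
      unfold Mb
      rw [if_pos hb]
      norm_num
    · rw [h, pow_one] at hk
      have hb : E ≠ ⊥ := by
        intro h0
        rw [h0, Subgroup.card_bot] at hk
        exact hp1.ne hk
      rw [if_neg hb, if_pos hk, if_neg (by rw [hk]; exact hpp)]
      unfold Mb
      rw [if_neg hb, R2A_p hLXT p hp E hk]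
      norm_num
    · rw [h] at hk
      have hb : E ≠ ⊥ := by
        intro h0
        rw [h0, Subgroup.card_bot] at hk
        nlinarith
      rw [if_neg hb, if_neg (by rw [hk]; exact hpp.symm), if_pos hk]
      unfold Mb
      rw [if_neg hb, R2A_pp hSBN hLXT p hp E hEA hk]
      norm_num
  rw [Finset.sum_congr rfl hval, Finset.sum_add_distrib, Finset.sum_add_distrib,
    Finset.sum_ite_eq', if_pos, ← Finset.sum_filter, ← Finset.sum_filter, Finset.sum_const,
    Finset.sum_const, nsmul_eq_mul, nsmul_eq_mul]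
  · have e2 : (FS (fun E : Subgroup C => EAb p E)).filter (fun E : Subgroup C => Nat.card E = p) =
        FS (fun E : Subgroup C => EAb p E ∧ Nat.card E = p) := by
      ext E
      rw [Finset.mem_filter, mem_FS, mem_FS]
    have e3 : (FS (fun E : Subgroup C => EAb p E)).filter (fun E : Subgroup C => Nat.card E = p ^ 2) =
        FS (fun E : Subgroup C => EAb p E ∧ Nat.card E = p ^ 2) := by
      ext E
      rw [Finset.mem_filter, mem_FS, mem_FS]
    rw [e2, e3]
    ring
  · rw [mem_FS]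
    constructor
    · intro x hx y hy
      rw [Subgroup.mem_bot] at hx hy
      rw [hx, hy]
    · intro x hx
      rw [Subgroup.mem_bot] at hx
      rw [hx, one_pow]

end RK
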